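import Mathlib

/-!
Word metrics and their metric-functional (horofunction) boundary: definitions and basic facts.
-/

set_option autoImplicit false

open Set Pointwise Filter Topology

namespace Pool.Agent.Lib.MP_1403bb_al

/-- Word length of `g` with respect to `S`: the least length of a word in elements of `S` and
their inverses with product `g`. -/
noncomputable def wordLength {G : Type*} [Group G] (S : Finset G) (g : G) : ℕ :=
  sInf {n : ℕ | ∃ l : List G, l.length = n ∧ (∀ s ∈ l, s ∈ S ∨ s⁻¹ ∈ S) ∧ l.prod = g}

/-- `b_x(y) = d(x,y) - d(x,1)` for the Cayley metric `d(x,y) = |x⁻¹ y|_S`. -/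
noncomputable def busemann {G : Type*} [Group G] (S : Finset G) (x y : G) : ℝ :=
  (wordLength S (x⁻¹ * y) : ℝ) - (wordLength S (x⁻¹ * 1) : ℝ)

/-- The metric-functional (horofunction) boundary of the Cayley metric of `S`: the pointwise
closure of the functions `b_x`, minus those functions. -/
def horoBoundary {G : Type*} [Group G] (S : Finset G) : Set (G → ℝ) :=
  closure (range (busemann S)) \ range (busemann S)

/-- allowed letters, including the identity -/
def Letter {G : Type*} [Group G] (S : Finset G) (s : G) : Prop := s ∈ S ∨ s⁻¹ ∈ S ∨ s = 1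

lemma exists_word {G : Type*} [Group G] {S : Finset G}
    (hS : Subgroup.closure (S : Set G) = ⊤) (g : G) :
    ∃ l : List G, (∀ s ∈ l, s ∈ S ∨ s⁻¹ ∈ S) ∧ l.prod = g := by
  have hg : g ∈ (Subgroup.closure (S : Set G)).toSubmonoid := by rw [hS]; trivial
  rw [Subgroup.closure_toSubmonoid] at hg
  obtain ⟨l, hl, hl'⟩ := Submonoid.exists_list_of_mem_closure hg
  exact ⟨l, by simpa using hl, hl'⟩

lemma wordLength_le_iff {G : Type*} [Group G] {S : Finset G}
    (hS : Subgroup.closure (S : Set G) = ⊤) (g : G) (n : ℕ) :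
    wordLength S g ≤ n ↔ ∃ l : List G, l.length = n ∧ (∀ s ∈ l, Letter S s) ∧ l.prod = g := by
  classical
  constructor
  · intro h
    have hne : {n : ℕ | ∃ l : List G, l.length = n ∧ (∀ s ∈ l, s ∈ S ∨ s⁻¹ ∈ S) ∧
        l.prod = g}.Nonempty := by
      obtain ⟨l, hl, hl'⟩ := exists_word hS g
      exact ⟨l.length, l, rfl, hl, hl'⟩
    obtain ⟨l, hl, hl', hl''⟩ := Nat.sInf_mem hne
    change l.length = wordLength S g at hl
    refine ⟨l ++ List.replicate (n - l.length) 1, ?_, ?_, ?_⟩
    · simp; omega
    · intro s hs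
      rw [List.mem_append] at hs
      rcases hs with hs | hs
      · rcases hl' s hs with h | h
        · exact Or.inl h
        · exact Or.inr (Or.inl h)
      · exact Or.inr (Or.inr (List.eq_of_mem_replicate hs))
    · simp [hl'']
  · rintro ⟨l, hl, hl', hl''⟩
    have hprod : (l.filter (fun s => decide (s ≠ 1))).prod = l.prod := by
      clear hl hl' hl''
      induction l with
      | nil => simp
      | cons a l ih =>
        by_cases ha : a = 1
        · simp [ha] ; simpa using ih
        · simp [ha] ; simpa using ih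
    calc wordLength S g ≤ (l.filter (fun s => decide (s ≠ 1))).length := by
          apply Nat.sInf_le
          refine ⟨l.filter (fun s => decide (s ≠ 1)), rfl, ?_, by rw [hprod, hl'']⟩
          intro s hs
          rw [List.mem_filter] at hs
          rcases hl' s hs.1 with h | h | h
          · exact Or.inl h
          · exact Or.inr h
          · simp [h] at hs
      _ ≤ l.length := List.length_filter_le _ _
      _ = n := hl

lemma finite_letters {G : Type*} [Group G] (S : Finset G) : {s : G | Letter S s}.Finite := by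
  have : {s : G | Letter S s} = (S : Set G) ∪ ((S : Set G)⁻¹ ∪ {1}) := by
    ext s
    simp only [Letter, mem_ofPred_eq, mem_union, Finset.mem_coe, Set.mem_inv, mem_singleton_iff]
  rw [this]
  exact S.finite_toSet.union (S.finite_toSet.inv.union (finite_singleton 1))

lemma Letter.inv {G : Type*} [Group G] {S : Finset G} {s : G} (h : Letter S s) :
    Letter S s⁻¹ := by
  rcases h with h | h | h
  · right; left; simpa using h
  · left; exact h
  · right; right; simp [h]

section basic

variable {G : Type*} [Group G] {S : Finset G} (hS : Subgroup.closure (S : Set G) = ⊤)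
include hS

lemma wordLength_one : wordLength S (1 : G) = 0 :=
  Nat.le_zero.1 ((wordLength_le_iff hS _ _).2 ⟨[], by simp⟩)

lemma wordLength_mul_le (g h : G) : wordLength S (g * h) ≤ wordLength S g + wordLength S h := by
  obtain ⟨l, hl, hl', hl''⟩ := (wordLength_le_iff hS g _).1 le_rfl
  obtain ⟨m, hm, hm', hm''⟩ := (wordLength_le_iff hS h _).1 le_rfl
  refine (wordLength_le_iff hS _ _).2 ⟨l ++ m, by simp [hl, hm], ?_, by simp [hl'', hm'']⟩
  intro s hs
  rcases List.mem_append.1 hs with hs | hs
  · exact hl' s hs
  · exact hm' s hs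

lemma wordLength_letter {s : G} (hs : Letter S s) : wordLength S s ≤ 1 :=
  (wordLength_le_iff hS _ _).2 ⟨[s], by simpa using hs⟩

lemma wordLength_inv_le (g : G) : wordLength S g⁻¹ ≤ wordLength S g := by
  obtain ⟨l, hl, hl', hl''⟩ := (wordLength_le_iff hS g _).1 le_rfl
  refine (wordLength_le_iff hS _ _).2 ⟨(l.map (fun x => x⁻¹)).reverse, by simp [hl], ?_, ?_⟩
  · intro s hs
    simp only [List.mem_reverse, List.mem_map] at hs
    obtain ⟨t, ht, rfl⟩ := hs
    exact (hl' t ht).inv
  · rw [← List.prod_inv_reverse, hl'']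

lemma wordLength_inv (g : G) : wordLength S g⁻¹ = wordLength S g :=
  le_antisymm (wordLength_inv_le hS g) (by simpa using wordLength_inv_le hS g⁻¹)

lemma eq_one_of_wordLength_eq_zero {g : G} (h : wordLength S g = 0) : g = 1 := by
  obtain ⟨l, hl, hl', hl''⟩ := (wordLength_le_iff hS g 0).1 h.le
  rw [List.length_eq_zero_iff] at hl
  subst hl
  simpa using hl''.symm

/-- a geodesic can be cut at any intermediate length -/
lemma exists_mul_of_le {g : G} {n : ℕ} (h : n ≤ wordLength S g) :
    ∃ u v : G, g = u * v ∧ wordLength S u = n ∧ wordLength S v = wordLength S g - n := by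
  obtain ⟨l, hl, hl', hl''⟩ := (wordLength_le_iff hS g _).1 le_rfl
  have h1 : wordLength S (l.take n).prod ≤ n :=
    (wordLength_le_iff hS _ _).2 ⟨l.take n, by simp [hl, h],
      fun s hs => hl' s (List.mem_of_mem_take hs), rfl⟩
  have h2 : wordLength S (l.drop n).prod ≤ wordLength S g - n :=
    (wordLength_le_iff hS _ _).2 ⟨l.drop n, by simp [hl],
      fun s hs => hl' s (List.mem_of_mem_drop hs), rfl⟩
  have h3 : (l.take n).prod * (l.drop n).prod = g := by
    rw [← List.prod_append, List.take_append_drop, hl'']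
  have h4 := wordLength_mul_le hS (l.take n).prod (l.drop n).prod
  rw [h3] at h4
  exact ⟨_, _, h3.symm, by omega, by omega⟩

lemma finite_ball (n : ℕ) : {g : G | wordLength S g ≤ n}.Finite := by
  classical
  have h1 : ({l : List {s : G // Letter S s} | l.length = n}).Finite := by
    have : Finite {s : G // Letter S s} := (finite_letters S).to_subtype
    exact List.finite_length_eq _ n
  refine (h1.image (fun l => (l.map (fun s : {s : G // Letter S s} => (s : G))).prod)).subset ?_
  intro g hg
  obtain ⟨l, hl, hl', hl''⟩ := (wordLength_le_iff hS g n).1 hg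
  refine ⟨l.attach.map (fun s => ⟨s.1, hl' s.1 s.2⟩), ?_, ?_⟩
  · simp [hl]
  · simp [List.map_map, Function.comp_def, hl'']

lemma countable_of_closure : Countable G := by
  have h : (univ : Set G) = ⋃ n : ℕ, {g : G | wordLength S g ≤ n} := by
    ext g
    simp only [mem_univ, mem_iUnion, mem_ofPred_eq, true_iff]
    exact ⟨_, le_rfl⟩
  rw [← countable_univ_iff, h]
  exact countable_iUnion fun n => (finite_ball hS n).countable

end basic

/-- integer valued Busemann cocycle -/
noncomputable def bInt {G : Type*} [Group G] (S : Finset G) (x y : G) : ℤ :=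
  (wordLength S (x⁻¹ * y) : ℤ) - wordLength S (x⁻¹ * 1)

lemma busemann_eq {G : Type*} [Group G] (S : Finset G) (x y : G) :
    busemann S x y = (bInt S x y : ℝ) := by
  simp [busemann, bInt]

/-- limits of integer valued functions along ultrafilters -/
lemma exists_int_of_tendsto {I : Type*} (u : Ultrafilter I) (c : I → ℤ) (x : ℝ)
    (h : Tendsto (fun i => (c i : ℝ)) u (𝓝 x)) :
    ∃ k : ℤ, x = k ∧ ∀ᶠ i in (u : Filter I), c i = k := by
  have h1 : x ∈ range ((↑) : ℤ → ℝ) :=
    Int.isClosedEmbedding_coe_real.isClosed_range.mem_of_tendsto h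
      (Eventually.of_forall fun i => ⟨c i, rfl⟩)
  obtain ⟨k, rfl⟩ := h1
  refine ⟨k, rfl, ?_⟩
  have h2 := Int.isClosedEmbedding_coe_real.isInducing.tendsto_nhds_iff.2 h
  rw [nhds_discrete] at h2
  exact tendsto_pure.1 h2

lemma exists_ultrafilter_of_mem_closure {I X : Type*} [TopologicalSpace X] (b : I → X) {f : X}
    (hf : f ∈ closure (range b)) : ∃ u : Ultrafilter I, Tendsto b u (𝓝 f) := by
  have h1 : MapClusterPt f ⊤ b := by
    rw [MapClusterPt, Filter.map_top, ← mem_closure_iff_clusterPt]
    exact hf
  obtain ⟨u, _, hu⟩ := mapClusterPt_iff_ultrafilter.1 h1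
  exact ⟨u, hu⟩

lemma exists_ultrafilter_bInt {G : Type*} [Group G] {S : Finset G} {f : G → ℝ}
    (hf : f ∈ closure (range (busemann S))) :
    ∃ u : Ultrafilter G, ∀ y, ∃ k : ℤ, f y = k ∧ ∀ᶠ x in (u : Filter G), bInt S x y = k := by
  obtain ⟨w, hw⟩ := exists_ultrafilter_of_mem_closure _ hf
  refine ⟨w, fun y => ?_⟩
  apply exists_int_of_tendsto
  have := (tendsto_pi_nhds.1 hw) y
  simpa [busemann_eq] using this

end Pool.Agent.Lib.MP_1403bb_al
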