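import Mathlib
import Pool.Agent.Lib.MP_1403bb_al.Basic

/-!
# The horofunction boundary as a compact space with an action of the group
-/

set_option autoImplicit false

open Set Filter Topology

namespace Pool.Agent.Lib.MP_1403bb_al.Bnd

open Pool.Agent.Lib.MP_1403bb_al

section

variable {G : Type*} [Group G] {S : Finset G}

/-- translation of functions, normalised at `1` -/
def tr (g : G) (f : G → ℝ) : G → ℝ := fun x => f (g * x) - f g

lemma tr_apply (g : G) (f : G → ℝ) (x : G) : tr g f x = f (g * x) - f g := rfl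

lemma continuous_tr (g : G) : Continuous (tr g) := by
  refine continuous_pi fun x => ?_
  exact (continuous_apply (g * x)).sub (continuous_apply g)

lemma tr_tr (g h : G) (f : G → ℝ) : tr h (tr g f) = tr (g * h) f := by
  ext x
  simp only [tr_apply, mul_assoc]
  ring

lemma tr_one {f : G → ℝ} (hf : f 1 = 0) : tr 1 f = f := by
  ext x
  simp [tr_apply, hf]

lemma tr_inv_tr {f : G → ℝ} (g : G) (hf : f 1 = 0) : tr g⁻¹ (tr g f) = f := by
  rw [tr_tr, mul_inv_cancel, tr_one hf]

lemma tr_busemann (g x : G) : tr g (busemann S x) = busemann S (g⁻¹ * x) := by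
  ext y
  have h1 : (g⁻¹ * x)⁻¹ = x⁻¹ * g := by group
  simp only [tr_apply, busemann, h1, mul_one, mul_assoc]
  ring

variable (hS : Subgroup.closure (S : Set G) = ⊤)
include hS

/-- an ultrafilter with a nonprincipal limit escapes every ball -/
lemma eventually_far {f : G → ℝ} {u : Ultrafilter G}
    (hu : ∀ y, ∃ k : ℤ, f y = k ∧ ∀ᶠ x in (u : Filter G), bInt S x y = k)
    (hf : f ∉ range (busemann S)) (n : ℕ) : ∀ᶠ x in (u : Filter G), n < wordLength S x := by
  by_contra h
  rw [← Ultrafilter.eventually_not] at h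
  have h1 : ∀ᶠ x in (u : Filter G), ∃ z ∈ {g : G | wordLength S g ≤ n}, x = z := by
    filter_upwards [h] with x hx
    exact ⟨x, not_lt.1 hx, rfl⟩
  obtain ⟨z, _, hz⟩ := (Ultrafilter.eventually_exists_mem_iff (finite_ball hS n)).1 h1
  apply hf
  refine ⟨z, ?_⟩
  ext y
  obtain ⟨k, hk, hk'⟩ := hu y
  obtain ⟨x, hx1, hx2⟩ := (hz.and hk').exists
  rw [busemann_eq, hk, ← hx2, hx1]

/-- boundary points are unbounded below -/
lemma exists_le_neg {f : G → ℝ} (hf : f ∈ horoBoundary S) (n : ℕ) :
    ∃ y : G, f y = -(n : ℝ) := by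
  obtain ⟨u, hu⟩ := exists_ultrafilter_bInt hf.1
  have hfar := eventually_far hS hu hf.2 n
  have h1 : ∀ᶠ x in (u : Filter G), ∃ y ∈ {g : G | wordLength S g ≤ n}, bInt S x y = -(n : ℤ) := by
    filter_upwards [hfar] with x hx
    obtain ⟨a, b, hab, ha, hb⟩ := exists_mul_of_le hS hx.le
    refine ⟨a, ha.le, ?_⟩
    have h2 : x⁻¹ * a = b⁻¹ := by rw [hab]; group
    rw [bInt, mul_one, h2, wordLength_inv hS, wordLength_inv hS, hb]
    push_cast [hx.le]
    ring
  obtain ⟨y, _, hy⟩ := (Ultrafilter.eventually_exists_mem_iff (finite_ball hS n)).1 h1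
  obtain ⟨k, hk, hk'⟩ := hu y
  obtain ⟨x, hx1, hx2⟩ := (hy.and hk').exists
  refine ⟨y, ?_⟩
  rw [hk, ← hx2, hx1]
  simp

/-- the functions `b_x` are isolated -/
lemma exists_isolating (x : G) : ∃ V : Set (G → ℝ), IsOpen V ∧ busemann S x ∈ V ∧
    ∀ x', busemann S x' ∈ V → x' = x := by
  classical
  let L : Finset G := (finite_letters S).toFinset
  let V : Set (G → ℝ) := {g | ∀ s ∈ L, g (x * s) > -(wordLength S x : ℝ) - 1 / 2} ∩
    {g | g x < -(wordLength S x : ℝ) + 1 / 2}
  refine ⟨V, ?_, ?_, ?_⟩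
  · refine IsOpen.inter ?_ ?_
    · have : {g : G → ℝ | ∀ s ∈ L, g (x * s) > -(wordLength S x : ℝ) - 1 / 2} =
          ⋂ s ∈ L, {g : G → ℝ | g (x * s) > -(wordLength S x : ℝ) - 1 / 2} := by
        ext g; simp
      rw [this]
      refine isOpen_biInter_finset fun s _ => ?_
      exact isOpen_lt continuous_const (continuous_apply (x * s))
    · exact isOpen_lt (continuous_apply x) continuous_const
  · have h0 := wordLength_one hS
    constructor
    · intro s _
      have h1 : x⁻¹ * (x * s) = s := by group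
      simp only [busemann, h1, mul_one, wordLength_inv hS]
      have : (0 : ℝ) ≤ wordLength S s := by positivity
      linarith
    · have h1 : x⁻¹ * x = 1 := by group
      simp only [busemann, mem_ofPred_eq, h1, h0, mul_one, wordLength_inv hS]
      norm_num
  · rintro x' ⟨h1, h2⟩
    by_contra hne
    simp only [mem_ofPred_eq, busemann, mul_one, wordLength_inv hS] at h1 h2
    have hpos : 1 ≤ wordLength S (x'⁻¹ * x) := by
      by_contra h
      have : wordLength S (x'⁻¹ * x) = 0 := by omega
      have := eq_one_of_wordLength_eq_zero hS this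
      exact hne (inv_mul_eq_one.1 this)
    obtain ⟨a, b, hab, ha, hb⟩ := exists_mul_of_le hS (n := wordLength S (x'⁻¹ * x) - 1)
      (g := x'⁻¹ * x) (by omega)
    have hb1 : wordLength S b = 1 := by omega
    have hbL : Letter S b := by
      obtain ⟨l, hl, hl', hl''⟩ := (wordLength_le_iff hS b 1).1 hb1.le
      rw [List.length_eq_one_iff] at hl
      obtain ⟨c, rfl⟩ := hl
      simp only [List.prod_cons, List.prod_nil, mul_one] at hl''
      rw [← hl'']
      exact hl' c (by simp)
    have h3 := h1 b⁻¹ (by simpa [L] using hbL.inv)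
    have h4 : x'⁻¹ * (x * b⁻¹) = a := by
      rw [← mul_assoc, hab]; group
    rw [h4, ha] at h3
    have h5 : ((wordLength S (x'⁻¹ * x) - 1 : ℕ) : ℝ) = (wordLength S (x'⁻¹ * x) : ℝ) - 1 := by
      push_cast [hpos]; ring
    rw [h5] at h3
    have h6 : (wordLength S (x'⁻¹ * x) : ℤ) - wordLength S x' ≤ -(wordLength S x : ℤ) := by
      by_contra hcon
      push Not at hcon
      have : (-(wordLength S x : ℤ) + 1 : ℤ) ≤ (wordLength S (x'⁻¹ * x) : ℤ) - wordLength S x' := by
        omega
      have : (-(wordLength S x : ℝ) + 1 : ℝ) ≤ (wordLength S (x'⁻¹ * x) : ℝ) - wordLength S x' := by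
        exact_mod_cast this
      linarith
    have h7 : ((wordLength S (x'⁻¹ * x) : ℝ) - wordLength S x') ≤ -(wordLength S x : ℝ) := by
      exact_mod_cast h6
    linarith

lemma abs_busemann_le (x y : G) : |busemann S x y| ≤ wordLength S y := by
  have h1 := wordLength_mul_le hS x⁻¹ y
  have h2 := wordLength_mul_le hS (x⁻¹ * y) y⁻¹
  rw [mul_assoc, mul_inv_cancel, wordLength_inv hS y] at h2
  rw [busemann, abs_le]
  have h1' : (wordLength S (x⁻¹ * y) : ℝ) ≤ wordLength S x⁻¹ + wordLength S y := by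
    exact_mod_cast h1
  have h2' : (wordLength S (x⁻¹ * 1) : ℝ) ≤ wordLength S (x⁻¹ * y) + wordLength S y := by
    exact_mod_cast h2
  rw [mul_one] at *
  constructor <;> linarith

lemma isCompact_closure_range : IsCompact (closure (range (busemann S))) := by
  have h1 : IsCompact (Set.pi univ fun y : G => Icc (-(wordLength S y : ℝ)) (wordLength S y)) :=
    isCompact_univ_pi fun y => isCompact_Icc
  refine h1.of_isClosed_subset isClosed_closure ?_
  refine closure_minimal ?_ h1.isClosed
  rintro _ ⟨x, rfl⟩ y _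
  exact abs_le.1 (abs_busemann_le hS x y)

/-- points of the closure are bounded by the word length -/
lemma abs_le_of_mem {f : G → ℝ} (hf : f ∈ closure (range (busemann S))) (y : G) :
    |f y| ≤ wordLength S y := by
  have h1 : IsClosed {g : G → ℝ | |g y| ≤ wordLength S y} :=
    isClosed_le (continuous_apply y).abs continuous_const
  refine closure_minimal ?_ h1 hf
  rintro _ ⟨x, rfl⟩
  exact abs_busemann_le hS x y

lemma apply_one {f : G → ℝ} (hf : f ∈ closure (range (busemann S))) : f 1 = 0 := by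
  have h1 := abs_le_of_mem hS hf 1
  rw [wordLength_one hS] at h1
  simpa using h1

omit hS in
/-- integer values -/
lemma exists_int {f : G → ℝ} (hf : f ∈ closure (range (busemann S))) (y : G) :
    ∃ k : ℤ, f y = k := by
  obtain ⟨u, hu⟩ := exists_ultrafilter_bInt hf
  obtain ⟨k, hk, -⟩ := hu y
  exact ⟨k, hk⟩

omit hS in
lemma tr_mem_closure {f : G → ℝ} (hf : f ∈ closure (range (busemann S))) (g : G) :
    tr g f ∈ closure (range (busemann S)) := by
  refine map_mem_closure (continuous_tr g) hf ?_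
  rintro _ ⟨x, rfl⟩
  exact ⟨g⁻¹ * x, (tr_busemann g x).symm⟩

lemma tr_mem {f : G → ℝ} (hf : f ∈ horoBoundary S) (g : G) : tr g f ∈ horoBoundary S := by
  refine ⟨tr_mem_closure hf.1 g, fun h => hf.2 ?_⟩
  obtain ⟨x, hx⟩ := h
  refine ⟨g * x, ?_⟩
  rw [← tr_inv_tr g (apply_one hS hf.1), ← hx, tr_busemann]
  simp

/-- left translation moves the value by at most the length -/
lemma le_apply_mul {f : G → ℝ} (hf : f ∈ closure (range (busemann S))) (g h : G) :
    f g - wordLength S h ≤ f (g * h) := by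
  have h1 := abs_le_of_mem hS (tr_mem_closure hf g) h
  rw [tr_apply, abs_le] at h1
  linarith [h1.1]

lemma apply_mul_le {f : G → ℝ} (hf : f ∈ closure (range (busemann S))) (g h : G) :
    f (g * h) ≤ f g + wordLength S h := by
  have h1 := abs_le_of_mem hS (tr_mem_closure hf g) h
  rw [tr_apply, abs_le] at h1
  linarith [h1.2]

/-- the boundary is compact -/
lemma isCompact_horoBoundary : IsCompact (horoBoundary S) := by
  choose V hV1 hV2 hV3 using fun x => exists_isolating hS x
  have h1 : horoBoundary S = closure (range (busemann S)) \ ⋃ x, V x := by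
    ext f
    constructor
    · rintro ⟨h2, h3⟩
      refine ⟨h2, fun h4 => ?_⟩
      obtain ⟨x, hx⟩ := mem_iUnion.1 h4
      have h5 : f ∈ V x ∩ {busemann S x}ᶜ := ⟨hx, fun h => h3 ⟨x, by
        rw [mem_singleton_iff] at h
        exact h.symm⟩⟩
      have h6 : IsOpen (V x ∩ {busemann S x}ᶜ) := (hV1 x).inter isOpen_compl_singleton
      obtain ⟨g, hg1, x', rfl⟩ := mem_closure_iff.1 h2 _ h6 h5
      have h7 := hV3 x x' hg1.1
      rw [h7] at hg1
      exact hg1.2 rfl
    · rintro ⟨h2, h3⟩
      refine ⟨h2, ?_⟩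
      rintro ⟨x, rfl⟩
      exact h3 (mem_iUnion.2 ⟨x, hV2 x⟩)
  rw [h1]
  exact (isCompact_closure_range hS).diff (isOpen_iUnion hV1)

/-- A closed set which contains `b_x` for points `x` arbitrarily far away meets the boundary. -/
lemma exists_limit {E : Set (G → ℝ)} (hE : IsClosed E)
    (h : ∀ n : ℕ, ∃ x, n ≤ wordLength S x ∧ busemann S x ∈ E) :
    (horoBoundary S ∩ E).Nonempty := by
  choose x hx1 hx2 using h
  have h1 : IsCompact (closure (range (busemann S)) ∩ E) :=
    (isCompact_closure_range hS).inter_right hE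
  have h2 : ∀ n, busemann S (x n) ∈ closure (range (busemann S)) ∩ E := fun n =>
    ⟨subset_closure ⟨x n, rfl⟩, hx2 n⟩
  obtain ⟨f, hf, hfc⟩ := h1.exists_mapClusterPt (f := atTop) (u := fun n => busemann S (x n))
    (by
      rw [le_principal_iff, mem_map]
      exact Eventually.of_forall h2)
  refine ⟨f, ⟨hf.1, ?_⟩, hf.2⟩
  rintro ⟨z, rfl⟩
  obtain ⟨V, hV1, hV2, hV3⟩ := exists_isolating hS z
  have h3 : ∃ᶠ n in atTop, busemann S (x n) ∈ V := by
    have := (mapClusterPt_iff_frequently.1 hfc) V (hV1.mem_nhds hV2)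
    exact this
  have h4 : ∀ᶠ n in atTop, wordLength S z < n := eventually_gt_atTop _
  obtain ⟨n, hn1, hn2⟩ := (h3.and_eventually h4).exists
  have h5 := hV3 _ hn1
  have h6 := hx1 n
  rw [h5] at h6
  omega

end

end Pool.Agent.Lib.MP_1403bb_al.Bnd
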