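import Mathlib
import Pool.Agent.Lib.MP_1403bb_al.Basic
import Pool.Agent.Lib.MP_1403bb_al.Bnd

/-!
# Paths along which a horofunction decreases linearly
-/

set_option autoImplicit false

open Set Filter Topology

namespace Pool.Agent.Lib.MP_1403bb_al.Path

open Pool.Agent.Lib.MP_1403bb_al

section

variable {G : Type*} [Group G]

/-- the vertices of the path with letters `w 0, w 1, ...` -/
def P (w : ℕ → G) : ℕ → G
  | 0 => 1
  | j + 1 => P w j * w j

@[simp] lemma P_zero (w : ℕ → G) : P w 0 = 1 := rfl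

lemma P_succ (w : ℕ → G) (j : ℕ) : P w (j + 1) = P w j * w j := rfl

lemma P_add (w : ℕ → G) (i j : ℕ) : P w (i + j) = P w i * P (fun k => w (i + k)) j := by
  induction j with
  | zero => simp
  | succ j ih => rw [← add_assoc, P_succ, ih, P_succ, mul_assoc]

/-- the word of the letters `w i, ..., w (i + n - 1)` -/
lemma P_eq_prod (w : ℕ → G) (n : ℕ) : P w n = ((List.range n).map w).prod := by
  induction n with
  | zero => simp
  | succ n ih => rw [List.range_succ, List.map_append, List.prod_append, P_succ, ih]; simp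

/-- pairs `(c, h)` such that `h` decreases at speed `c` along a path with letters in `T` -/
def D (T : Finset G) : Set (ℝ × (G → ℝ)) :=
  {q | ∃ w : ℕ → G, (∀ i, w i ∈ T) ∧ ∀ j : ℕ, q.2 (P w j) ≤ -(q.1 * j)}

/-- limits of sequences of paths along an ultrafilter -/
lemma exists_limit_path {I : Type*} (u : Ultrafilter I) (T : Finset G) (w : I → ℕ → G)
    (hw : ∀ i : ℕ, ∀ᶠ x in (u : Filter I), w x i ∈ T) :
    ∃ v : ℕ → G, (∀ i, v i ∈ T) ∧ ∀ j : ℕ, ∀ᶠ x in (u : Filter I), P (w x) j = P v j := by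
  have h1 : ∀ i : ℕ, ∃ t ∈ T, ∀ᶠ x in (u : Filter I), w x i = t := by
    intro i
    have h2 : ∀ᶠ x in (u : Filter I), ∃ t ∈ (T : Set G), w x i = t := by
      filter_upwards [hw i] with x hx
      exact ⟨_, hx, rfl⟩
    obtain ⟨t, ht, ht'⟩ := (Ultrafilter.eventually_exists_mem_iff T.finite_toSet).1 h2
    exact ⟨t, ht, ht'⟩
  choose v hv1 hv2 using h1
  refine ⟨v, hv1, fun j => ?_⟩
  induction j with
  | zero => exact Eventually.of_forall fun x => rfl
  | succ j ih =>
    filter_upwards [ih, hv2 j] with x hx1 hx2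
    rw [P_succ, P_succ, hx1, hx2]

lemma isClosed_D (T : Finset G) : IsClosed (D T) := by
  rw [isClosed_iff_ultrafilter]
  intro q u hu hD
  have hex : ∀ q' ∈ D T, ∃ w : ℕ → G, (∀ i, w i ∈ T) ∧ ∀ j : ℕ, q'.2 (P w j) ≤ -(q'.1 * j) :=
    fun q' h => h
  choose! w hw1 hw2 using hex
  obtain ⟨v, hv1, hv2⟩ := exists_limit_path u T w (fun i => by
    filter_upwards [hD] with q' hq'
    exact hw1 q' hq' i)
  refine ⟨v, hv1, fun j => ?_⟩
  have h1 : IsClosed {q' : ℝ × (G → ℝ) | q'.2 (P v j) ≤ -(q'.1 * j)} :=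
    isClosed_le ((continuous_apply (P v j)).comp continuous_snd)
      ((continuous_fst.mul continuous_const).neg)
  refine isClosed_iff_ultrafilter.1 h1 q u hu ?_
  filter_upwards [hD, hv2 j] with q' hq' hq
  have h2 := hw2 q' hq' j
  rw [hq] at h2
  exact h2

lemma D_mono {T : Finset G} {c c' : ℝ} (hc : c' ≤ c) {h : G → ℝ} (hh : (c, h) ∈ D T) :
    (c', h) ∈ D T := by
  obtain ⟨w, hw1, hw2⟩ := hh
  refine ⟨w, hw1, fun j => (hw2 j).trans ?_⟩
  have h1 : c' * (j : ℝ) ≤ c * j := mul_le_mul_of_nonneg_right hc (Nat.cast_nonneg j)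
  change -(c * (j : ℝ)) ≤ -(c' * (j : ℝ))
  linarith

/-- record indices of a sequence which tends to `-∞` -/
lemma exists_record {a : ℕ → ℝ} (ha : ∀ B : ℝ, ∃ m, ∀ i ≥ m, a i ≤ B) (m : ℕ) :
    ∃ j ≥ m, ∀ i ≥ j, a i ≤ a j := by
  obtain ⟨M, hM⟩ := ha (a m)
  obtain ⟨j, hj1, hj2⟩ := (Finset.Icc m (max m M)).exists_max_image a
    ⟨m, Finset.mem_Icc.2 ⟨le_rfl, le_max_left _ _⟩⟩
  rw [Finset.mem_Icc] at hj1
  refine ⟨j, hj1.1, fun i hi => ?_⟩
  by_cases h : i ≤ max m M
  · exact hj2 i (Finset.mem_Icc.2 ⟨hj1.1.trans hi, h⟩)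
  · have h1 := hM i (by
      have := le_max_right m M
      omega)
    exact h1.trans (hj2 m (Finset.mem_Icc.2 ⟨le_rfl, le_max_left _ _⟩))

/-- last maximum of a finite sequence -/
lemma exists_record_finite (a : ℕ → ℝ) (L : ℕ) :
    ∃ j ≤ L, a 0 ≤ a j ∧ ∀ i, i ≤ L → a i ≤ a j := by
  obtain ⟨j, hj1, hj2⟩ := (Finset.range (L + 1)).exists_max_image a ⟨0, by simp⟩
  refine ⟨j, by simpa [Nat.lt_succ_iff] using hj1, hj2 0 (by simp), fun i hi => hj2 i ?_⟩
  simpa [Nat.lt_succ_iff] using hi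

variable {S : Finset G} (hS : Subgroup.closure (S : Set G) = ⊤)
include hS

lemma wordLength_P_le {T : Finset G} {C : ℕ} (hC : ∀ t ∈ T, wordLength S t ≤ C) {w : ℕ → G} {j : ℕ}
    (hw : ∀ i < j, w i ∈ T) : wordLength S (P w j) ≤ C * j := by
  induction j with
  | zero => simp [wordLength_one hS]
  | succ j ih =>
    have h1 := ih fun i hi => hw i (by omega)
    have h2 := hC _ (hw j (by omega))
    have h3 := wordLength_mul_le hS (P w j) (w j)
    rw [P_succ]
    have h4 : C * (j + 1) = C * j + C := by ring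
    omega

/-- boundary points which decrease at speed `c` exist if there are long words with a length
at least `ε > c` times the number of letters -/
lemma exists_mem_D {T : Finset G} {ε c : ℝ} (hc : c < ε) (hc0 : 0 ≤ c)
    (hε : ∀ m : ℕ, ∃ l : List G, m ≤ l.length ∧ (∀ t ∈ l, t ∈ T) ∧
      ε * l.length ≤ wordLength S l.prod) :
    ∃ h ∈ horoBoundary S, (c, h) ∈ D T := by
  obtain ⟨C, hC⟩ : ∃ C : ℕ, ∀ t ∈ T, wordLength S t ≤ C :=
    ⟨T.sup (wordLength S), fun t ht => Finset.le_sup (f := wordLength S) ht⟩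
  -- finite approximations
  have hfin : ∀ m : ℕ, ∃ z : G, ∃ w : ℕ → G, m ≤ wordLength S z ∧ (∀ i < m, w i ∈ T) ∧
      ∀ j ≤ m, busemann S z (P w j) ≤ -(c * j) := by
    intro m
    obtain ⟨M, hM⟩ := exists_nat_ge (((C + 1 : ℕ) * m : ℝ) / (ε - c))
    obtain ⟨l, hl1, hl2, hl3⟩ := hε M
    have hεc : 0 < ε - c := sub_pos.2 hc
    obtain ⟨w, hw⟩ : ∃ w : ℕ → G, ∀ i (hi : i < l.length), w i = l[i] :=
      ⟨fun i => if hi : i < l.length then l[i] else 1, fun i hi => dif_pos hi⟩
    have hwT : ∀ i < l.length, w i ∈ T := fun i hi => by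
      rw [hw i hi]
      exact hl2 _ (List.getElem_mem hi)
    have hprod : P w l.length = l.prod := by
      rw [P_eq_prod]
      congr 1
      refine List.ext_getElem (by simp) fun i h1 h2 => ?_
      simp [hw i h2]
    obtain ⟨x, hx⟩ : ∃ x, x = l.prod := ⟨_, rfl⟩
    rw [← hx] at hl3 hprod
    obtain ⟨a, ha⟩ : ∃ a : ℕ → ℝ, ∀ j, a j = busemann S x (P w j) + c * j := ⟨_, fun j => rfl⟩
    obtain ⟨j₀, hj1, hj2, hj3⟩ := exists_record_finite a l.length
    have ha0 : a 0 = 0 := by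
      rw [ha, P_zero]
      simp [busemann]
    rw [ha0] at hj2
    obtain ⟨r, hr⟩ := Nat.exists_eq_add_of_le hj1
    -- the shifted path
    have hb : ∀ i, i ≤ r → busemann S ((P w j₀)⁻¹ * x) (P (fun k => w (j₀ + k)) i) ≤ -(c * i) := by
      intro i hi
      have h1 := hj3 (j₀ + i) (by omega)
      rw [ha, ha, P_add] at h1
      rw [← Bnd.tr_busemann, Bnd.tr_apply]
      push_cast at h1
      linarith
    have hz : (P w j₀)⁻¹ * x = P (fun k => w (j₀ + k)) r := by
      rw [← hprod, hr, P_add, inv_mul_cancel_left]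
    have hlen : (ε - c) * l.length ≤ wordLength S ((P w j₀)⁻¹ * x) := by
      have h1 : busemann S x x = -(wordLength S x : ℝ) := by
        simp only [busemann, inv_mul_cancel, mul_one, wordLength_one hS, wordLength_inv hS]
        simp
      have h2 : busemann S ((P w j₀)⁻¹ * x) ((P w j₀)⁻¹ * x) =
          -(wordLength S ((P w j₀)⁻¹ * x) : ℝ) := by
        simp only [busemann, inv_mul_cancel, mul_one, wordLength_one hS, wordLength_inv hS]
        simp
      rw [← Bnd.tr_busemann, Bnd.tr_apply, mul_inv_cancel_left, h1] at h2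
      rw [ha] at hj2
      have h3 : c * (j₀ : ℝ) ≤ c * l.length :=
        mul_le_mul_of_nonneg_left (by exact_mod_cast hj1) hc0
      linarith
    have hlenM : ((C + 1 : ℕ) * m : ℝ) ≤ (ε - c) * l.length := by
      rw [div_le_iff₀ hεc] at hM
      have h1 : (M : ℝ) ≤ l.length := by exact_mod_cast hl1
      nlinarith
    have hzm : (C + 1) * m ≤ wordLength S ((P w j₀)⁻¹ * x) := by
      exact_mod_cast hlenM.trans hlen
    have hrT : ∀ i < r, w (j₀ + i) ∈ T := fun i hi => hwT _ (by omega)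
    have hr1 : m ≤ r := by
      have h1 := wordLength_P_le hS hC hrT
      rw [← hz] at h1
      by_contra hcon
      push Not at hcon
      have h2 : C * r ≤ C * m := Nat.mul_le_mul_left C hcon.le
      have h3 : (C + 1) * m = C * m + m := by ring
      omega
    refine ⟨(P w j₀)⁻¹ * x, fun k => w (j₀ + k), ?_, fun i hi => hrT i (by omega),
      fun j hj => hb j (by omega)⟩
    have h3 : (C + 1) * m = C * m + m := by ring
    omega
  choose z w hz hw hb using hfin
  -- the limit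
  obtain ⟨u, hu⟩ : ∃ u : Ultrafilter ℕ, (u : Filter ℕ) ≤ atTop :=
    ⟨hyperfilter ℕ, by rw [← Nat.cofinite_eq_atTop]; exact hyperfilter_le_cofinite⟩
  have hge : ∀ m, ∀ᶠ n in (u : Filter ℕ), m ≤ n := fun m => hu (eventually_ge_atTop m)
  obtain ⟨v, hv1, hv2⟩ := exists_limit_path u T w fun i => by
    filter_upwards [hge (i + 1)] with n hn
    exact hw n i (by omega)
  obtain ⟨h, hh1, hh2⟩ := isCompact_iff_ultrafilter_le_nhds.1 (Bnd.isCompact_closure_range hS)
    (u.map fun n => busemann S (z n)) (by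
      rw [le_principal_iff]
      change ∀ᶠ n in (u : Filter ℕ), busemann S (z n) ∈ closure (range (busemann S))
      exact Eventually.of_forall fun n => subset_closure ⟨_, rfl⟩)
  have htend : Tendsto (fun n => busemann S (z n)) u (𝓝 h) := hh2
  refine ⟨h, ⟨hh1, ?_⟩, v, hv1, fun j => ?_⟩
  · rintro ⟨x, rfl⟩
    obtain ⟨V, hV1, hV2, hV3⟩ := Bnd.exists_isolating hS x
    have h3 : ∀ᶠ n in (u : Filter ℕ), busemann S (z n) ∈ V := htend (hV1.mem_nhds hV2)
    obtain ⟨n, hn1, hn2⟩ := (h3.and (hge (wordLength S x + 1))).exists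
    have h4 := hV3 _ hn1
    have h5 := hz n
    rw [h4] at h5
    omega
  · refine le_of_tendsto ((tendsto_pi_nhds.1 htend) (P v j)) ?_
    filter_upwards [hge j, hv2 j] with n hn1 hn2
    have h3 := hb n j hn1
    rw [hn2] at h3
    exact h3

end

end Pool.Agent.Lib.MP_1403bb_al.Path
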