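import Mathlib

/-!
# Finite invariant pieces of countable compact sets

A group acts on a countable compact set `X`.  For every closed set `E` which meets `X` there is a
closed invariant set `K` inside `X` such that `K ∩ E` is finite and not empty.
-/

set_option autoImplicit false

open Set

namespace Pool.Agent.Lib.MP_1403bb_al.Top

/-- A nonempty countable compact set has an isolated point. -/
lemma exists_isolated {Y : Type*} [TopologicalSpace Y] [T2Space Y] {K : Set Y}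
    (hK : IsCompact K) (hc : K.Countable) (hne : K.Nonempty) :
    ∃ f ∈ K, ∃ U : Set Y, IsOpen U ∧ U ∩ K = {f} := by
  have : CompactSpace K := isCompact_iff_compactSpace.1 hK
  have : Countable K := hc.to_subtype
  have : Nonempty K := hne.to_subtype
  obtain ⟨x, hx⟩ := nonempty_interior_of_iUnion_of_closed (f := fun x : K => ({x} : Set K))
    (fun x => isClosed_singleton) (by ext x; simp)
  have h1 : IsOpen (interior ({x} : Set K)) := isOpen_interior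
  have h2 : interior ({x} : Set K) = {x} := by
    refine Subset.antisymm interior_subset ?_
    obtain ⟨y, hy⟩ := hx
    have h3 : y = x := by simpa using interior_subset hy
    rw [h3] at hy
    rw [singleton_subset_iff]
    exact hy
  rw [h2, isOpen_induced_iff] at h1
  obtain ⟨U, hU, hU'⟩ := h1
  refine ⟨x.1, x.2, U, hU, ?_⟩
  ext y
  rw [mem_inter_iff, mem_singleton_iff]
  constructor
  · rintro ⟨h3, h4⟩
    have h5 : (⟨y, h4⟩ : K) ∈ Subtype.val ⁻¹' U := h3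
    rw [hU', mem_singleton_iff] at h5
    exact congrArg Subtype.val h5
  · rintro rfl
    have h5 : x ∈ Subtype.val ⁻¹' U := by
      rw [hU']
      rfl
    exact ⟨h5, x.2⟩

/-- The main tool: a nonempty piece of a closed set inside an invariant closed set all of whose
points are isolated in the invariant set. -/
theorem exists_piece {Y : Type*} [TopologicalSpace Y] [T2Space Y] {G : Type*} [Group G]
    (tr : G → Y → Y) (hcont : ∀ g, Continuous (tr g)) {X : Set Y} (hX : IsCompact X)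
    (hXc : X.Countable) (h1 : ∀ f ∈ X, tr 1 f = f)
    (hm : ∀ g h, ∀ f ∈ X, tr h (tr g f) = tr (g * h) f) (hi : ∀ g, ∀ f ∈ X, tr g f ∈ X)
    {E : Set Y} (hE : IsClosed E) (hEX : (X ∩ E).Nonempty) :
    ∃ K ⊆ X, IsClosed K ∧ (∀ g, ∀ f ∈ K, tr g f ∈ K) ∧ (K ∩ E).Nonempty ∧
      ∀ f ∈ K ∩ E, ∃ U : Set Y, IsOpen U ∧ U ∩ K = {f} := by
  obtain ⟨F, hF⟩ : ∃ F : Set (Set Y), F = {K | K ⊆ X ∧ IsClosed K ∧
      (∀ g, ∀ f ∈ K, tr g f ∈ K) ∧ (K ∩ E).Nonempty} := ⟨_, rfl⟩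
  obtain ⟨K, -, hK⟩ := zorn_superset_nonempty F (by
    intro c hc hcc hcn
    refine ⟨⋂₀ c, ?_, fun s hs => sInter_subset_of_mem hs⟩
    rw [hF] at hc ⊢
    obtain ⟨s0, hs0⟩ := hcn
    refine ⟨(sInter_subset_of_mem hs0).trans (hc hs0).1, isClosed_sInter fun s hs => (hc hs).2.1,
      fun g f hf s hs => (hc hs).2.2.1 g f (hf s hs), ?_⟩
    have h2 : (⋂₀ ((fun s => s ∩ E) '' c)).Nonempty := by
      have : Nonempty ((fun s => s ∩ E) '' c) := ⟨⟨s0 ∩ E, s0, hs0, rfl⟩⟩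
      refine IsCompact.nonempty_sInter_of_directed_nonempty_isCompact_isClosed ?_ ?_ ?_ ?_
      · rintro _ ⟨s, hs, rfl⟩ _ ⟨t, ht, rfl⟩
        rcases hcc.total hs ht with h | h
        · exact ⟨_, ⟨s, hs, rfl⟩, subset_rfl, inter_subset_inter_left _ h⟩
        · exact ⟨_, ⟨t, ht, rfl⟩, inter_subset_inter_left _ h, subset_rfl⟩
      · rintro _ ⟨s, hs, rfl⟩
        exact (hc hs).2.2.2
      · rintro _ ⟨s, hs, rfl⟩
        exact hX.of_isClosed_subset ((hc hs).2.1.inter hE)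
          (inter_subset_left.trans (hc hs).1)
      · rintro _ ⟨s, hs, rfl⟩
        exact (hc hs).2.1.inter hE
    obtain ⟨f, hf⟩ := h2
    rw [mem_sInter] at hf
    exact ⟨f, mem_sInter.2 fun s hs => (hf _ ⟨s, hs, rfl⟩).1, (hf _ ⟨s0, hs0, rfl⟩).2⟩)
    X (by rw [hF]; exact ⟨subset_rfl, hX.isClosed, hi, hEX⟩)
  obtain ⟨⟨hKX, hKc, hKi, hKE⟩, hmin⟩ : K ∈ {K | K ⊆ X ∧ IsClosed K ∧
      (∀ g, ∀ f ∈ K, tr g f ∈ K) ∧ (K ∩ E).Nonempty} ∧ ∀ L ∈ F, L ⊆ K → K ⊆ L := by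
    have h3 := hK.1
    rw [hF] at h3
    exact ⟨h3, fun L hL hLK => hK.2 hL hLK⟩
  have hKcpt : IsCompact K := hX.of_isClosed_subset hKc hKX
  -- the isolated points of `K`
  obtain ⟨I, hI⟩ : ∃ I : Set Y, I = {f | f ∈ K ∧ ∃ U : Set Y, IsOpen U ∧ U ∩ K = {f}} := ⟨_, rfl⟩
  have hIne : I.Nonempty := by
    obtain ⟨f, hf, U, hU, hU'⟩ := exists_isolated hKcpt (hXc.mono hKX) hKE.left
    exact ⟨f, by rw [hI]; exact ⟨hf, U, hU, hU'⟩⟩
  have hIo : ∃ O : Set Y, IsOpen O ∧ O ∩ K = I := by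
    refine ⟨⋃₀ {U | IsOpen U ∧ ∃ f ∈ K, U ∩ K = {f}}, isOpen_sUnion fun U hU => hU.1, ?_⟩
    ext f
    rw [hI, mem_inter_iff, mem_sUnion]
    constructor
    · rintro ⟨⟨U, ⟨hU, f', hf', hU'⟩, hfU⟩, hfK⟩
      have h3 : f ∈ U ∩ K := ⟨hfU, hfK⟩
      rw [hU', mem_singleton_iff] at h3
      rw [← h3] at hU'
      exact ⟨hfK, U, hU, hU'⟩
    · rintro ⟨hfK, U, hU, hU'⟩
      have h3 : f ∈ U ∩ K := by
        rw [hU']
        rfl
      exact ⟨⟨U, ⟨hU, f, hfK, hU'⟩, h3.1⟩, hfK⟩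
  obtain ⟨O, hO, hO'⟩ := hIo
  have hcl : IsClosed (K \ O) := hKc.sdiff hO
  have hinv : ∀ g, ∀ f ∈ K \ O, tr g f ∈ K \ O := by
    rintro g f ⟨hfK, hfO⟩
    refine ⟨hKi g f hfK, fun h => hfO ?_⟩
    have h3 : tr g f ∈ I := by
      rw [← hO']
      exact ⟨h, hKi g f hfK⟩
    rw [hI] at h3
    obtain ⟨-, U, hU, hU'⟩ := h3
    have h4 : f ∈ I := by
      rw [hI]
      refine ⟨hfK, tr g ⁻¹' U, hU.preimage (hcont g), ?_⟩
      ext f'
      rw [mem_inter_iff, mem_preimage, mem_singleton_iff]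
      constructor
      · rintro ⟨h5, h6⟩
        have h7 : tr g f' ∈ U ∩ K := ⟨h5, hKi g f' h6⟩
        rw [hU', mem_singleton_iff] at h7
        have h8 := congrArg (tr g⁻¹) h7
        rw [hm g g⁻¹ f' (hKX h6), hm g g⁻¹ f (hKX hfK), mul_inv_cancel, h1 f' (hKX h6),
          h1 f (hKX hfK)] at h8
        exact h8
      · rintro rfl
        have h7 : tr g f' ∈ U ∩ K := by
          rw [hU']
          rfl
        exact ⟨h7.1, hfK⟩
    rw [← hO'] at h4
    exact h4.1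
  have hsub : K ∩ E ⊆ I := by
    by_contra hcon
    rw [not_subset] at hcon
    obtain ⟨f, hf, hfI⟩ := hcon
    have h3 : K \ O ∈ F := by
      rw [hF]
      refine ⟨sdiff_subset.trans hKX, hcl, hinv, f, ⟨hf.1, fun h => hfI ?_⟩, hf.2⟩
      rw [← hO']
      exact ⟨h, hf.1⟩
    have h4 := hmin _ h3 sdiff_subset
    obtain ⟨f', hf'⟩ := hIne
    rw [← hO'] at hf'
    exact (h4 hf'.2).2 hf'.1
  refine ⟨K, hKX, hKc, hKi, hKE, ?_⟩
  intro f hf
  have h3 := hsub hf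
  rw [hI] at h3
  exact h3.2

/-- A compact set all of whose points are isolated in a larger set is finite. -/
lemma finite_of_isolated {Y : Type*} [TopologicalSpace Y] {K C : Set Y} (hC : IsCompact C)
    (hCK : C ⊆ K) (hU : ∀ f ∈ C, ∃ U : Set Y, IsOpen U ∧ U ∩ K = {f}) : C.Finite := by
  choose! U hU1 hU2 using hU
  obtain ⟨t, ht⟩ := hC.elim_nhds_subcover' (fun f _ => U f) fun f hf => by
    refine (hU1 f hf).mem_nhds ?_
    have h3 : f ∈ U f ∩ K := by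
      rw [hU2 f hf]
      rfl
    exact h3.1
  refine (t.finite_toSet.image Subtype.val).subset fun f hf => ?_
  have h3 := ht hf
  simp only [mem_iUnion] at h3
  obtain ⟨f', hf', h4⟩ := h3
  have h5 : f ∈ U f' ∩ K := ⟨h4, hCK hf⟩
  rw [hU2 f' f'.2, mem_singleton_iff] at h5
  exact ⟨f', hf', h5.symm⟩

/-- The main tool: a finite nonempty piece of a closed set inside an invariant closed set. -/
theorem exists_finite {Y : Type*} [TopologicalSpace Y] [T2Space Y] {G : Type*} [Group G]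
    (tr : G → Y → Y) (hcont : ∀ g, Continuous (tr g)) {X : Set Y} (hX : IsCompact X)
    (hXc : X.Countable) (h1 : ∀ f ∈ X, tr 1 f = f)
    (hm : ∀ g h, ∀ f ∈ X, tr h (tr g f) = tr (g * h) f) (hi : ∀ g, ∀ f ∈ X, tr g f ∈ X)
    {E : Set Y} (hE : IsClosed E) (hEX : (X ∩ E).Nonempty) :
    ∃ K ⊆ X, IsClosed K ∧ (∀ g, ∀ f ∈ K, tr g f ∈ K) ∧ (K ∩ E).Nonempty ∧ (K ∩ E).Finite := by
  obtain ⟨K, hKX, hKc, hKi, hKE, hU⟩ := exists_piece tr hcont hX hXc h1 hm hi hE hEX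
  exact ⟨K, hKX, hKc, hKi, hKE, finite_of_isolated (hX.of_isClosed_subset (hKc.inter hE)
    (inter_subset_left.trans hKX)) inter_subset_left hU⟩

/-- Version for a decreasing sequence of closed sets. -/
theorem exists_finite_seq {Y : Type*} [TopologicalSpace Y] [T2Space Y] {G : Type*} [Group G]
    (tr : G → Y → Y) (hcont : ∀ g, Continuous (tr g)) {X : Set Y} (hX : IsCompact X)
    (hXc : X.Countable) (h1 : ∀ f ∈ X, tr 1 f = f)
    (hm : ∀ g h, ∀ f ∈ X, tr h (tr g f) = tr (g * h) f) (hi : ∀ g, ∀ f ∈ X, tr g f ∈ X)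
    {E : ℕ → Set Y} (hE : ∀ n, IsClosed (E n)) (hanti : Antitone E)
    (hEX : (X ∩ ⋂ n, E n).Nonempty) :
    ∃ K ⊆ X, IsClosed K ∧ (∀ g, ∀ f ∈ K, tr g f ∈ K) ∧ (K ∩ ⋂ n, E n).Nonempty ∧
      ∃ n₀, ∀ n ≥ n₀, (K ∩ E n).Finite := by
  obtain ⟨K, hKX, hKc, hKi, hKE, hU⟩ := exists_piece tr hcont hX hXc h1 hm hi
    (isClosed_iInter hE) hEX
  refine ⟨K, hKX, hKc, hKi, hKE, ?_⟩
  have hcpt : ∀ n, IsCompact (K ∩ E n) := fun n =>
    hX.of_isClosed_subset (hKc.inter (hE n)) (inter_subset_left.trans hKX)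
  choose! U hU1 hU2 using hU
  obtain ⟨O, hO⟩ : ∃ O : Set Y, O = ⋃ f ∈ K ∩ ⋂ n, E n, U f := ⟨_, rfl⟩
  have hOo : IsOpen O := by
    rw [hO]
    exact isOpen_biUnion hU1
  have hex : ∃ n, K ∩ E n ⊆ O := by
    by_contra hcon
    push Not at hcon
    have h2 : (⋂ n, (K ∩ E n) \ O).Nonempty := by
      refine IsCompact.nonempty_iInter_of_sequence_nonempty_isCompact_isClosed _ ?_ ?_ ?_ ?_
      · intro n
        exact sdiff_subset_sdiff_left (inter_subset_inter_right _ (hanti (Nat.le_succ n)))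
      · intro n
        obtain ⟨f, hf, hfO⟩ := not_subset.1 (hcon n)
        exact ⟨f, hf, hfO⟩
      · exact (hcpt 0).diff hOo
      · intro n
        exact (hcpt n).isClosed.sdiff hOo
    obtain ⟨f, hf⟩ := h2
    rw [mem_iInter] at hf
    have h3 : f ∈ K ∩ ⋂ n, E n := ⟨(hf 0).1.1, mem_iInter.2 fun n => (hf n).1.2⟩
    refine (hf 0).2 ?_
    rw [hO]
    refine mem_biUnion h3 ?_
    have h4 : f ∈ U f ∩ K := by
      rw [hU2 f h3]
      rfl
    exact h4.1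
  obtain ⟨n₀, hn₀⟩ := hex
  refine ⟨n₀, fun n hn => finite_of_isolated (hcpt n) inter_subset_left fun f hf => ?_⟩
  have h3 : f ∈ O := hn₀ ⟨hf.1, hanti hn hf.2⟩
  rw [hO] at h3
  simp only [mem_iUnion] at h3
  obtain ⟨f', hf', h4⟩ := h3
  refine ⟨U f', hU1 f' hf', ?_⟩
  have h5 : f ∈ U f' ∩ K := ⟨h4, hf.1⟩
  rw [hU2 f' hf', mem_singleton_iff] at h5
  rw [hU2 f' hf', h5]

end Pool.Agent.Lib.MP_1403bb_al.Top
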